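import Mathlib
import Pool.Agent.V11158.MagHom
import Pool.Agent.V11158.House

open Pool.Agent.V11158.MagHom Pool.Agent.V11158.House

namespace Pool.Agent.Results.MP_65cbfa_co.HouseCounterexample

/-- A sign vector `σ` is a chamber of the arrangement with normals `α 0, …, α (n-1)` if some point
`x` lies strictly on the sides of all hyperplanes prescribed by `σ` (`true` is the positive
side). -/
def IsChamber {d n : ℕ} (α : Fin n → Fin d → ℝ) (σ : Fin n → Bool) : Prop :=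
  ∃ x : Fin d → ℝ, ∀ i, (σ i = true → 0 < α i ⬝ᵥ x) ∧ (σ i = false → α i ⬝ᵥ x < 0)

/-- The chambers of the arrangement with normals `α`, each encoded by its sign vector. -/
abbrev Chamber {d n : ℕ} (α : Fin n → Fin d → ℝ) : Type := {σ : Fin n → Bool // IsChamber α σ}

/-- The number of hyperplanes separating two chambers. -/
def sep {d n : ℕ} (α : Fin n → Fin d → ℝ) (C D : Chamber α) : ℕ := hammingDist C.1 D.1

/-- The normals define distinct hyperplanes. -/
def IsArrangement {d n : ℕ} (α : Fin n → Fin d → ℝ) : Prop :=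
  (∀ i, α i ≠ 0) ∧ ∀ i j, i ≠ j → LinearIndependent ℝ ![α i, α j]

/-- The rank of the arrangement: the dimension of the span of the normals. -/
noncomputable def arrRank {d n : ℕ} (α : Fin n → Fin d → ℝ) : ℕ :=
  Module.finrank ℝ (Submodule.span ℝ (Set.range α))

/-- The arrangement is not a direct sum of two nonempty arrangements: its normals cannot be split
into two nonempty families whose spans meet only in `0`. -/
def Indecomposable {d n : ℕ} (α : Fin n → Fin d → ℝ) : Prop :=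
  ∀ S : Set (Fin n), S.Nonempty → Sᶜ.Nonempty →
    ¬ Disjoint (Submodule.span ℝ (α '' S)) (Submodule.span ℝ (α '' Sᶜ))

/-! ### the arrangement of the house graph -/

/-- codes of the chambers, with codes of points inside -/
def tab : List (ℕ × ℕ) :=
  [(0, 30583), (16, 38775), (48, 51063), (4, 31095), (20, 39270), (52, 43638), (12, 23415),
   (44, 31863), (60, 39799), (2, 30615), (18, 38550), (50, 42918), (10, 22455), (42, 30663),
   (58, 38839), (6, 22933), (22, 39316), (54, 43413), (14, 27286), (46, 31398), (62, 39319),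
   (1, 30585), (17, 38505), (49, 42873), (9, 22395), (41, 30588), (57, 38779), (5, 22873),
   (21, 39241), (53, 43353), (13, 27241), (45, 31353), (61, 39289), (3, 21913), (19, 38041),
   (51, 42393), (11, 26521), (43, 30633), (59, 38809), (15, 18841), (47, 31129), (63, 39321)]

/-- cells of the first kind -/
def L1 : List (ℕ × ℕ × ℕ) :=
  [(4, 8, 16), (20, 16, 32), (52, 8, 32), (12, 8, 32), (44, 16, 32), (60, 8, 16),
   (2, 8, 16), (18, 16, 32), (50, 8, 32), (10, 8, 32), (42, 16, 32), (58, 8, 16),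
   (6, 8, 16), (22, 16, 32), (54, 8, 32), (14, 8, 32), (46, 16, 32), (62, 8, 16),
   (1, 8, 16), (17, 16, 32), (49, 8, 32), (9, 8, 32), (41, 16, 32), (57, 8, 16),
   (5, 8, 16), (21, 16, 32), (53, 8, 32), (13, 8, 32), (45, 16, 32), (61, 8, 16),
   (3, 8, 16), (19, 16, 32), (51, 8, 32), (11, 8, 32), (43, 16, 32), (59, 8, 16)]

/-- cells of the second kind -/
def L2 : List (List ℕ × ℕ × ℕ × ℕ × ℕ) :=
  [([0, 1, 2, 3, 4, 5, 6, 15, 16, 17, 18, 19, 20, 21, 22, 63], 1, 3, 7, 23),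
   ([48, 49, 50, 51, 52, 53, 54, 63, 16, 17, 18, 19, 20, 21, 22, 15], 1, 3, 7, 39),
   ([12, 13, 14, 15, 4, 5, 6, 3, 44, 45, 46, 47, 52, 53, 54, 51], 1, 3, 11, 43),
   ([44, 45, 46, 47, 60, 61, 62, 63, 12, 13, 14, 15, 20, 21, 22, 19], 1, 3, 19, 51),
   ([60, 61, 62, 63, 52, 53, 54, 51, 44, 45, 46, 47, 4, 5, 6, 3], 1, 3, 11, 27),
   ([10, 11, 14, 15, 2, 3, 6, 5, 42, 43, 46, 47, 50, 51, 54, 53], 1, 5, 13, 45),
   ([42, 43, 46, 47, 58, 59, 62, 63, 10, 11, 14, 15, 18, 19, 22, 21], 1, 5, 21, 53),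
   ([58, 59, 62, 63, 50, 51, 54, 53, 42, 43, 46, 47, 2, 3, 6, 5], 1, 5, 13, 29),
   ([6, 4, 2, 0, 14, 12, 10, 9, 22, 20, 18, 16, 62, 60, 58, 57], 2, 6, 14, 30),
   ([22, 20, 18, 16, 6, 4, 2, 0, 54, 52, 50, 48, 46, 44, 42, 41], 2, 6, 22, 54),
   ([54, 52, 50, 48, 62, 60, 58, 57, 22, 20, 18, 16, 14, 12, 10, 9], 2, 6, 14, 46),
   ([9, 11, 13, 15, 1, 3, 5, 6, 41, 43, 45, 47, 49, 51, 53, 54], 2, 6, 14, 46),
   ([41, 43, 45, 47, 57, 59, 61, 63, 9, 11, 13, 15, 17, 19, 21, 22], 2, 6, 22, 54),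
   ([57, 59, 61, 63, 49, 51, 53, 54, 41, 43, 45, 47, 1, 3, 5, 6], 2, 6, 14, 30),
   ([5, 4, 1, 0, 13, 12, 9, 10, 21, 20, 17, 16, 61, 60, 57, 58], 1, 5, 13, 29),
   ([21, 20, 17, 16, 5, 4, 1, 0, 53, 52, 49, 48, 45, 44, 41, 42], 1, 5, 21, 53),
   ([53, 52, 49, 48, 61, 60, 57, 58, 21, 20, 17, 16, 13, 12, 9, 10], 1, 5, 13, 45),
   ([3, 2, 1, 0, 11, 10, 9, 12, 19, 18, 17, 16, 59, 58, 57, 60], 1, 3, 11, 27),
   ([19, 18, 17, 16, 3, 2, 1, 0, 51, 50, 49, 48, 43, 42, 41, 44], 1, 3, 19, 51),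
   ([51, 50, 49, 48, 59, 58, 57, 60, 19, 18, 17, 16, 11, 10, 9, 12], 1, 3, 11, 43),
   ([15, 14, 13, 12, 11, 10, 9, 0, 47, 46, 45, 44, 43, 42, 41, 48], 1, 3, 7, 39),
   ([63, 62, 61, 60, 59, 58, 57, 48, 47, 46, 45, 44, 43, 42, 41, 0], 1, 3, 7, 23)]

/-- integer normals -/
def wz : Fin 6 → Fin 4 → ℤ :=
  ![![1, 0, 0, 0], ![0, 1, 0, 0], ![0, 0, 1, 0], ![1, 1, 1, 0], ![0, 0, 0, 1], ![1, 1, 1, 1]]

/-- The graphic arrangement of the house graph (a 5-cycle with one chord), in coordinates in which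
the hyperplanes are `x_1 = 0`, `x_2 = 0`, `x_3 = 0`, `x_1 + x_2 + x_3 = 0`, `x_4 = 0` and
`x_1 + x_2 + x_3 + x_4 = 0`. -/
def house : Fin 6 → Fin 4 → ℝ := fun i k => (wz i k : ℝ)

/-- values of the linear forms -/
def sv {R : Type} [Ring R] (x : Fin 4 → R) : Fin 6 → R :=
  ![x 0, x 1, x 2, x 0 + x 1 + x 2, x 3, x 0 + x 1 + x 2 + x 3]

lemma house_dot (x : Fin 4 → ℝ) (i : Fin 6) : house i ⬝ᵥ x = sv x i := by
  fin_cases i <;> simp [house, wz, sv, dotProduct, Fin.sum_univ_four]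

/-- sign vector of a code -/
def ofCode (c : ℕ) : Fin 6 → Bool := fun i => c.testBit i

/-- the codes -/
def codes : List ℕ := tab.map Prod.fst

/-- coordinates of the point of a code -/
def ptz (p : ℕ) : Fin 4 → ℤ := fun i => (((p >>> (4 * (i : ℕ))) &&& 15 : ℕ) : ℤ) - 8

lemma tab_point : ∀ e ∈ tab, ∀ i : Fin 6,
    (ofCode e.1 i = true → 0 < sv (ptz e.2) i) ∧ (ofCode e.1 i = false → sv (ptz e.2) i < 0) := by
  decide +kernel

lemma sv_cast (x : Fin 4 → ℤ) (i : Fin 6) : sv (fun k => (x k : ℝ)) i = ((sv x i : ℤ) : ℝ) := by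
  fin_cases i <;> simp [sv]

lemma isChamber_of_mem {c : ℕ} (hc : c ∈ codes) : IsChamber house (ofCode c) := by
  unfold codes at hc
  rw [List.mem_map] at hc
  obtain ⟨e, he, rfl⟩ := hc
  refine ⟨fun k => (ptz e.2 k : ℝ), fun i => ?_⟩
  rw [house_dot, sv_cast]
  have := tab_point e he i
  refine ⟨fun h => ?_, fun h => ?_⟩
  · exact_mod_cast this.1 h
  · exact_mod_cast this.2 h

/-- sign condition on the square -/
def cl3 (a b c s : Bool) : Bool := !(a && b && c && !s) && !(!a && !b && !c && s)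

/-- sign condition on the triangle -/
def cl2 (s a t : Bool) : Bool := !(s && a && !t) && !(!s && !a && t)

/-- sign conditions -/
def ok (a b c s d t : Bool) : Bool := cl3 a b c s && cl2 s d t

/-- code of a sign vector -/
def codeOf (b : Fin 6 → Bool) : ℕ :=
  (b 0).toNat + 2 * (b 1).toNat + 4 * (b 2).toNat + 8 * (b 3).toNat + 16 * (b 4).toNat +
  32 * (b 5).toNat

lemma key : ∀ b0 b1 b2 b3 b4 b5 : Bool, ok b0 b1 b2 b3 b4 b5 = true →
    codeOf ![b0, b1, b2, b3, b4, b5] ∈ codes := by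
  decide +kernel

lemma key2 : ∀ b0 b1 b2 b3 b4 b5 : Bool, codeOf ![b0, b1, b2, b3, b4, b5] < 64 ∧
    ∀ i, ofCode (codeOf ![b0, b1, b2, b3, b4, b5]) i = ![b0, b1, b2, b3, b4, b5] i := by
  decide +kernel

lemma vec_eq (σ : Fin 6 → Bool) : σ = ![σ 0, σ 1, σ 2, σ 3, σ 4, σ 5] := by
  funext i
  fin_cases i <;> rfl

lemma codeOf_lt (σ : Fin 6 → Bool) : codeOf σ < 64 := by
  rw [vec_eq σ]
  exact (key2 _ _ _ _ _ _).1

lemma ofCode_codeOf (σ : Fin 6 → Bool) : ofCode (codeOf σ) = σ := by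
  conv_rhs => rw [vec_eq σ]
  conv_lhs => rw [vec_eq σ]
  funext i
  exact (key2 _ _ _ _ _ _).2 i

lemma codeOf_mem {σ : Fin 6 → Bool} (h : IsChamber house σ) : codeOf σ ∈ codes := by
  obtain ⟨x, hx⟩ := h
  have hx' : ∀ i, (σ i = true → 0 < sv x i) ∧ (σ i = false → sv x i < 0) := by
    intro i
    have := hx i
    rwa [house_dot] at this
  have h0 := hx' 0
  have h1 := hx' 1
  have h2 := hx' 2
  have h3 := hx' 3
  have h4 := hx' 4
  have h5 := hx' 5
  rw [vec_eq σ]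
  apply key
  unfold ok
  rw [Bool.and_eq_true]
  simp only [sv, Matrix.cons_val_zero, Matrix.cons_val_one, Matrix.cons_val] at h0 h1 h2 h3 h4 h5
  constructor
  · generalize σ 0 = s0 at *
    generalize σ 1 = s1 at *
    generalize σ 2 = s2 at *
    generalize σ 3 = s3 at *
    clear h4 h5 hx hx'
    cases s0 <;> cases s1 <;> cases s2 <;> cases s3 <;> simp [cl3] at * <;> linarith
  · generalize σ 3 = s3 at *
    generalize σ 4 = s4 at *
    generalize σ 5 = s5 at *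
    clear h0 h1 h2 hx hx'
    cases s3 <;> cases s4 <;> cases s5 <;> simp [cl2] at * <;> linarith

/-- code of a chamber -/
def κ (C : Chamber house) : ℕ := codeOf C.1

lemma κ_lt (C : Chamber house) : κ C < 64 := codeOf_lt _

lemma κ_mem (C : Chamber house) : κ C ∈ codes := codeOf_mem C.2

lemma κ_inj : Function.Injective κ := by
  intro C D h
  apply Subtype.ext
  rw [← ofCode_codeOf C.1, ← ofCode_codeOf D.1]
  exact congrArg ofCode h

/-- chamber of a code -/
noncomputable def K (c : ℕ) : Chamber house :=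
  open Classical in
  if h : c ∈ codes then ⟨ofCode c, isChamber_of_mem h⟩
  else ⟨ofCode 0, isChamber_of_mem (by decide +kernel)⟩

lemma codeOf_ofCode : ∀ c < 64, codeOf (ofCode c) = c := by decide +kernel

lemma codes_lt : ∀ c ∈ codes, c < 64 := by decide +kernel

lemma κ_K {c : ℕ} (h : c ∈ codes) : κ (K c) = c := by
  unfold K κ
  rw [dif_pos h]
  exact codeOf_ofCode c (codes_lt c h)

lemma bit1 (x k : ℕ) : x >>> k &&& 1 = if x.testBit k then 1 else 0 := by
  simp only [Nat.testBit, Nat.and_one_is_mod, Nat.one_and_eq_mod_two]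
  rcases Nat.mod_two_eq_zero_or_one (x >>> k) with h | h <;> simp [h]

lemma pc_eq (a c : ℕ) : hammingDist (ofCode a) (ofCode c) = pc (a ^^^ c) := by
  have h0 : ∀ x : ℕ, x &&& 1 = x >>> 0 &&& 1 := fun x => by simp
  have h1 : ∀ p q : Bool, (if p ≠ q then 1 else 0 : ℕ) = if (p ^^ q) = true then 1 else 0 := by
    decide
  have h2 : ∀ i : Fin 6, (if ofCode a i ≠ ofCode c i then 1 else 0 : ℕ) =
      if (a ^^^ c).testBit i = true then 1 else 0 := by
    intro i
    rw [Nat.testBit_xor]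
    exact h1 _ _
  unfold hammingDist pc
  rw [Finset.card_filter, Finset.sum_congr rfl (fun i _ => h2 i), h0]
  simp only [bit1, Fin.sum_univ_succ, Fin.sum_univ_zero]
  simp only [Fin.val_zero, Fin.val_succ, zero_add, Nat.reduceAdd]
  ring

lemma sep_eq (C D : Chamber house) : sep house C D = pc (κ C ^^^ κ D) := by
  unfold sep κ
  rw [← pc_eq, ofCode_codeOf, ofCode_codeOf]

/-- data of a cell of the first kind -/
def P1 (a bx b wm : ℕ) : Prop :=
  (a ∈ codes ∧ a ^^^ 56 ∈ codes ∧ a ^^^ bx ∈ codes ∧ a ^^^ b ∈ codes) ∧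
  (bx &&& 56 = bx ∧ b &&& 56 = b ∧ pc bx = 1 ∧ pc b = 1) ∧
  (bx &&& wm = bx ∧ b &&& wm ≠ bx ∧ pc (bx ^^^ b) = 2) ∧ (cov 0 bx = true ∧ cov bx wm = true) ∧
  (∀ x ∈ codes, (a ^^^ x) &&& 56 = a ^^^ x → x ≠ a → (a ^^^ x) &&& wm ≠ 0) ∧
  (∀ x ∈ codes, (a ^^^ x) &&& 56 = a ^^^ x → x ≠ a ^^^ 56 → (a ^^^ x) &&& wm ≠ wm)

instance (a bx b wm : ℕ) : Decidable (P1 a bx b wm) := by unfold P1; infer_instance

lemma xor_self_left (a b : ℕ) : a ^^^ (a ^^^ b) = b := by
  rw [← Nat.xor_assoc, Nat.xor_self, Nat.zero_xor]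

lemma ne_K {x : Chamber house} {c : ℕ} (hc : c ∈ codes) (h : x ≠ K c) : κ x ≠ c := by
  intro h'
  apply h
  apply κ_inj
  rw [h', κ_K hc]

/-- the cell of the first kind -/
noncomputable def mk1 {a bx b wm : ℕ} (h : P1 a bx b wm) : Cell1 κ where
  a := K a
  b := K (a ^^^ 56)
  u := K (a ^^^ bx)
  v := K (a ^^^ b)
  bx := bx
  wm := wm
  hb := by rw [κ_K h.1.1, κ_K h.1.2.1, xor_self_left]
  hu := by rw [κ_K h.1.1, κ_K h.1.2.2.1, xor_self_left]; exact h.2.1.1
  hv := by rw [κ_K h.1.1, κ_K h.1.2.2.2, xor_self_left]; exact h.2.1.2.1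
  pu := by rw [κ_K h.1.1, κ_K h.1.2.2.1, xor_self_left]; exact h.2.1.2.2.1
  pv := by rw [κ_K h.1.1, κ_K h.1.2.2.2, xor_self_left]; exact h.2.1.2.2.2
  wu := by rw [κ_K h.1.1, κ_K h.1.2.2.1, xor_self_left]; exact h.2.2.1.1
  wv := by rw [κ_K h.1.1, κ_K h.1.2.2.2, xor_self_left]; exact h.2.2.1.2.1
  huv := by rw [κ_K h.1.2.2.1, κ_K h.1.2.2.2, xor_xor]; exact h.2.2.1.2.2
  c1 := h.2.2.2.1.1
  c2 := h.2.2.2.1.2
  low := by
    intro x h1 h2
    rw [κ_K h.1.1] at h1 ⊢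
    exact h.2.2.2.2.1 _ (κ_mem x) h1 (ne_K h.1.1 h2)
  high := by
    intro x h1 h2
    rw [κ_K h.1.1] at h1 ⊢
    exact h.2.2.2.2.2 _ (κ_mem x) h1 (ne_K h.1.2.1 h2)

/-- data of a cell of the second kind -/
def P2 (p : ℕ → ℕ) (w1 w2 w3 wm : ℕ) : Prop :=
  (∀ T < 16, p T ∈ codes) ∧ p 0 ^^^ p 15 = 63 ∧
  (∀ T < 16, ∀ T' < 16, T &&& T' = T → (p 0 ^^^ p T) &&& (p 0 ^^^ p T') = p 0 ^^^ p T) ∧
  (∀ T < 16, ∀ T' < 16, T ≠ T' → p T ≠ p T') ∧
  (cov 0 w1 = true ∧ cov w1 w2 = true ∧ cov w2 w3 = true ∧ cov w3 wm = true ∧ w1 ≠ w2 ∧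
    w2 ≠ w3) ∧
  ((∀ x ∈ codes, x ≠ p 0 → (p 0 ^^^ x) &&& wm ≠ 0) ∧
    (∀ x ∈ codes, x ≠ p 15 → (p 0 ^^^ x) &&& wm ≠ wm)) ∧
  (∀ T < 16, ((p 0 ^^^ p T) &&& wm = w1 ↔ T = 1)) ∧
  (∀ T < 16, ((p 0 ^^^ p T) &&& wm = w2 ↔ T = 3)) ∧
  (∀ T < 16, ((p 0 ^^^ p T) &&& wm = w3 ↔ T = 7))

instance (p : ℕ → ℕ) (w1 w2 w3 wm : ℕ) : Decidable (P2 p w1 w2 w3 wm) := by
  unfold P2; infer_instance

/-- the cell of the second kind -/
noncomputable def mk2 {p : ℕ → ℕ} {w1 w2 w3 wm : ℕ} (h : P2 p w1 w2 w3 wm) : Cell2 κ where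
  P := fun T => K (p T)
  w1 := w1
  w2 := w2
  w3 := w3
  wm := wm
  hab := by rw [κ_K (h.1 0 (by norm_num)), κ_K (h.1 15 (by norm_num))]; exact h.2.1
  sub := by
    intro T hT T' hT' h'
    rw [κ_K (h.1 0 (by norm_num)), κ_K (h.1 T hT), κ_K (h.1 T' hT')]
    exact h.2.2.1 T hT T' hT' h'
  ne := by
    intro T hT T' hT' h' heq
    have := congrArg κ heq
    rw [κ_K (h.1 T hT), κ_K (h.1 T' hT')] at this
    exact h.2.2.2.1 T hT T' hT' h' this
  c1 := h.2.2.2.2.1.1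
  c2 := h.2.2.2.2.1.2.1
  c3 := h.2.2.2.2.1.2.2.1
  c4 := h.2.2.2.2.1.2.2.2.1
  n1 := h.2.2.2.2.1.2.2.2.2.1
  n2 := h.2.2.2.2.1.2.2.2.2.2
  low := by
    intro x hx
    rw [κ_K (h.1 0 (by norm_num))]
    exact h.2.2.2.2.2.1.1 _ (κ_mem x) (ne_K (h.1 0 (by norm_num)) hx)
  high := by
    intro x hx
    rw [κ_K (h.1 0 (by norm_num))]
    exact h.2.2.2.2.2.1.2 _ (κ_mem x) (ne_K (h.1 15 (by norm_num)) hx)
  W1 := by
    intro T hT
    rw [κ_K (h.1 0 (by norm_num)), κ_K (h.1 T hT)]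
    exact h.2.2.2.2.2.2.1 T hT
  W2 := by
    intro T hT
    rw [κ_K (h.1 0 (by norm_num)), κ_K (h.1 T hT)]
    exact h.2.2.2.2.2.2.2.1 T hT
  W3 := by
    intro T hT
    rw [κ_K (h.1 0 (by norm_num)), κ_K (h.1 T hT)]
    exact h.2.2.2.2.2.2.2.2 T hT

lemma all1 : ∀ i : Fin 36, P1 (L1.getD i 0).1 (L1.getD i 0).2.1 (L1.getD i 0).2.2
    ((L1.getD i 0).2.1 + (L1.getD i 0).2.2) := by decide +kernel

lemma inj1 : ∀ i j : Fin 36, (L1.getD i 0).1 = (L1.getD j 0).1 → i = j := by decide +kernel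

/-- points of the cells of the second kind -/
def pts (i : Fin 22) (T : ℕ) : ℕ := (L2.getD i ([], 0)).1.getD T 0

lemma all2 : ∀ i : Fin 22, P2 (pts i) (L2.getD i ([], 0)).2.1 (L2.getD i ([], 0)).2.2.1
    (L2.getD i ([], 0)).2.2.2.1 (L2.getD i ([], 0)).2.2.2.2 := by decide +kernel

lemma inj2 : ∀ i j : Fin 22, pts i 0 = pts j 0 → i = j := by decide +kernel

lemma betti_lower : 58 ≤ betti (sep house) 4 6 := by
  classical
  have := lower_bound (d := sep house) (κ := κ) sep_eq κ_lt (fun i => mk1 (all1 i))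
    (fun i => mk2 (all2 i)) (by
      intro i j h
      apply inj1
      have := congrArg κ h
      simp only [mk1] at this
      rwa [κ_K (all1 i).1.1, κ_K (all1 j).1.1] at this) (by
      intro i j h
      apply inj2
      have := congrArg κ h
      simp only [mk2] at this
      rwa [κ_K ((all2 i).1 0 (by norm_num)), κ_K ((all2 j).1 0 (by norm_num))] at this)
  exact this

lemma card_chamber : Nat.card (Chamber house) = 42 := by
  have hnd : codes.Nodup := by decide +kernel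
  have e : Chamber house ≃ {c // c ∈ codes.toFinset} :=
    { toFun := fun C => ⟨κ C, List.mem_toFinset.mpr (κ_mem C)⟩
      invFun := fun c => K c.1
      left_inv := fun C => κ_inj (κ_K (κ_mem C))
      right_inv := fun c => Subtype.ext (κ_K (List.mem_toFinset.mp c.2)) }
  rw [Nat.card_congr e, Nat.card_eq_fintype_card, Fintype.card_coe,
    List.toFinset_card_of_nodup hnd]
  decide +kernel

lemma betti_zero_zero : betti (sep house) 0 0 = 42 := by
  classical
  have : Fintype (Chamber house) := Fintype.ofFinite _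
  rw [betti_zero, ← Nat.card_eq_fintype_card, card_chamber]
  intro C D h
  exact Subtype.ext (hammingDist_eq_zero.mp h)

/-! ### the arrangement -/

lemma house_isArrangement : IsArrangement house := by
  constructor
  · intro i h
    have : ∀ i, ∃ k, wz i k ≠ 0 := by decide +kernel
    obtain ⟨k, hk⟩ := this i
    have h1 := congrFun h k
    simp only [house, Pi.zero_apply] at h1
    exact hk (by exact_mod_cast h1)
  · intro i j hij
    have : ∀ i j, i ≠ j → ∃ k l, wz i k * wz j l - wz i l * wz j k ≠ 0 := by decide +kernel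
    obtain ⟨k, l, hkl⟩ := this i j hij
    rw [LinearIndependent.pair_iff]
    intro s t h
    have hk := congrFun h k
    have hl := congrFun h l
    simp only [house, Pi.add_apply, Pi.smul_apply, smul_eq_mul, Pi.zero_apply] at hk hl
    have hne : ((wz i k : ℝ) * wz j l - wz i l * wz j k) ≠ 0 := by exact_mod_cast hkl
    constructor
    · apply (mul_eq_zero.mp (_ : s * ((wz i k : ℝ) * wz j l - wz i l * wz j k) = 0)).resolve_right
        hne
      linear_combination (wz j l : ℝ) * hk - (wz j k : ℝ) * hl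
    · apply (mul_eq_zero.mp (_ : t * ((wz i k : ℝ) * wz j l - wz i l * wz j k) = 0)).resolve_right
        hne
      linear_combination (wz i k : ℝ) * hl - (wz i l : ℝ) * hk

lemma house_rank : arrRank house = 4 := by
  have h : Submodule.span ℝ (Set.range house) = ⊤ := by
    rw [Submodule.eq_top_iff']
    intro x
    have hx : x = x 0 • house 0 + x 1 • house 1 + x 2 • house 2 + x 3 • house 4 := by
      funext k
      fin_cases k <;> simp [house, wz]
    rw [hx]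
    have hm : ∀ i, house i ∈ Submodule.span ℝ (Set.range house) := fun i =>
      Submodule.subset_span ⟨i, rfl⟩
    exact Submodule.add_mem _ (Submodule.add_mem _ (Submodule.add_mem _
      (Submodule.smul_mem _ _ (hm 0)) (Submodule.smul_mem _ _ (hm 1)))
      (Submodule.smul_mem _ _ (hm 2))) (Submodule.smul_mem _ _ (hm 4))
  rw [arrRank, h, finrank_top, Module.finrank_fin_fun]

lemma house_indecomposable : Indecomposable house := by
  intro S hS hS' hdis
  have h0 := house_isArrangement.1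
  rw [Submodule.disjoint_def] at hdis
  have hin : ∀ i, i ∈ S → house i ∈ Submodule.span ℝ (house '' S) := fun i hi =>
    Submodule.subset_span ⟨i, hi, rfl⟩
  have hout : ∀ i, i ∉ S → house i ∈ Submodule.span ℝ (house '' Sᶜ) := fun i hi =>
    Submodule.subset_span ⟨i, hi, rfl⟩
  -- a general principle: split a relation into its two parts
  have split : ∀ c : Fin 6 → ℝ, ∑ i, c i • house i = 0 →
      ∀ [DecidablePred (· ∈ S)], ∑ i, (if i ∈ S then c i else 0) • house i = 0 := by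
    intro c hc _
    apply hdis
    · apply Submodule.sum_mem
      intro i _
      split_ifs with hi
      · exact Submodule.smul_mem _ _ (hin i hi)
      · rw [zero_smul]; exact Submodule.zero_mem _
    · have h1 : ∑ i, (if i ∈ S then c i else 0) • house i =
          - ∑ i, (if i ∈ S then 0 else c i) • house i := by
        rw [eq_neg_iff_add_eq_zero, ← Finset.sum_add_distrib, ← hc]
        apply Finset.sum_congr rfl
        intro i _
        split_ifs <;> simp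
      rw [h1]
      apply Submodule.neg_mem
      apply Submodule.sum_mem
      intro i _
      split_ifs with hi
      · rw [zero_smul]; exact Submodule.zero_mem _
      · exact Submodule.smul_mem _ _ (hout i hi)
  classical
  -- the square relation
  have r1 := split ![1, 1, 1, -1, 0, 0] (by
    funext k
    fin_cases k <;> simp [Fin.sum_univ_succ, house, wz])
  -- the triangle relation
  have r2 := split ![0, 0, 0, 1, 1, -1] (by
    funext k
    fin_cases k <;> simp [Fin.sum_univ_succ, house, wz])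
  have hsum : ∀ (c : Fin 6 → ℝ) (k : Fin 4),
      (∑ i, (if i ∈ S then c i else 0) • house i) k =
      (if (0 : Fin 6) ∈ S then c 0 else 0) * (wz 0 k : ℝ) +
      (if (1 : Fin 6) ∈ S then c 1 else 0) * (wz 1 k : ℝ) +
      (if (2 : Fin 6) ∈ S then c 2 else 0) * (wz 2 k : ℝ) +
      (if (3 : Fin 6) ∈ S then c 3 else 0) * (wz 3 k : ℝ) +
      (if (4 : Fin 6) ∈ S then c 4 else 0) * (wz 4 k : ℝ) +
      (if (5 : Fin 6) ∈ S then c 5 else 0) * (wz 5 k : ℝ) := by
    intro c k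
    rw [Finset.sum_apply, Fin.sum_univ_six]
    rfl
  have a0 := congrFun r1 0
  have a1 := congrFun r1 1
  have a2 := congrFun r1 2
  have b0 := congrFun r2 0
  have b3 := congrFun r2 3
  rw [hsum] at a0 a1 a2 b0 b3
  simp [wz] at a0 a1 a2 b0 b3
  have m0 : (0 : Fin 6) ∈ S ↔ (3 : Fin 6) ∈ S := by
    by_cases s0 : (0 : Fin 6) ∈ S <;> by_cases s3 : (3 : Fin 6) ∈ S <;> simp [s0, s3] at a0 ⊢
  have m1 : (1 : Fin 6) ∈ S ↔ (3 : Fin 6) ∈ S := by
    by_cases s0 : (1 : Fin 6) ∈ S <;> by_cases s3 : (3 : Fin 6) ∈ S <;> simp [s0, s3] at a1 ⊢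
  have m2 : (2 : Fin 6) ∈ S ↔ (3 : Fin 6) ∈ S := by
    by_cases s0 : (2 : Fin 6) ∈ S <;> by_cases s3 : (3 : Fin 6) ∈ S <;> simp [s0, s3] at a2 ⊢
  have m5 : (5 : Fin 6) ∈ S ↔ (3 : Fin 6) ∈ S := by
    by_cases s0 : (5 : Fin 6) ∈ S <;> by_cases s3 : (3 : Fin 6) ∈ S <;> simp [s0, s3] at b0 ⊢
  have m4 : (4 : Fin 6) ∈ S ↔ (5 : Fin 6) ∈ S := by
    by_cases s0 : (4 : Fin 6) ∈ S <;> by_cases s3 : (5 : Fin 6) ∈ S <;> simp [s0, s3] at b3 ⊢
  have hall : ∀ i, i ∈ S ↔ (3 : Fin 6) ∈ S := by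
    intro i
    fin_cases i
    · exact m0
    · exact m1
    · exact m2
    · exact Iff.rfl
    · exact m4.trans m5
    · exact m5
  obtain ⟨i, hi⟩ := hS
  obtain ⟨j, hj⟩ := hS'
  exact hj ((hall j).mpr ((hall i).mp hi))

/-- There is an indecomposable arrangement of `6` hyperplanes in `ℝ⁴`, of rank `4`, with `42`
chambers, such that `β_{0,0} = 42` while `β_{4,6} ≥ 58`. -/
theorem result : ∃ α : Fin 6 → Fin 4 → ℝ,
    IsArrangement α ∧ arrRank α = 4 ∧ Indecomposable α ∧ Nat.card (Chamber α) = 42 ∧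
    betti (sep α) 0 0 = 42 ∧ 58 ≤ betti (sep α) 4 6 :=
  ⟨house, house_isArrangement, house_rank, house_indecomposable, card_chamber, betti_zero_zero,
    betti_lower⟩

end Pool.Agent.Results.MP_65cbfa_co.HouseCounterexample
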